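import Pool.Agent.Run7.h757.MW.Stm5

/-!
# Project MW, piece LOW1
-/

set_option autoImplicit false

open Finset MeasureTheory Filter

namespace Pool.Agent.Run7.h374.MW

open Pool.Agent.Run7.h757.MW

/-- `(1 + η)^k ≤ 1 + k 2^k η` -/
theorem one_add_pow_le {η : ℝ} (h0 : 0 ≤ η) (h1 : η ≤ 1) (k : ℕ) :
    (1 + η) ^ k ≤ 1 + k * 2 ^ k * η := by
  induction k with
  | zero => simp
  | succ k ih =>
    have h2 : (0 : ℝ) ≤ k * 2 ^ k := by positivity
    have h3 : (1 : ℝ) ≤ 2 ^ k := one_le_pow₀ (by norm_num)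
    calc (1 + η) ^ (k + 1) = (1 + η) ^ k * (1 + η) := pow_succ _ _
      _ ≤ (1 + k * 2 ^ k * η) * (1 + η) := mul_le_mul_of_nonneg_right ih (by linarith)
      _ = 1 + η * (k * 2 ^ k + 1 + k * 2 ^ k * η) := by ring
      _ ≤ 1 + η * (k * 2 ^ k + 1 + k * 2 ^ k * 1) := by
          have := mul_le_mul_of_nonneg_left h1 h2
          have := mul_le_mul_of_nonneg_left this h0
          nlinarith
      _ ≤ 1 + ((k + 1 : ℕ) : ℝ) * 2 ^ (k + 1) * η := by
          push_cast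
          rw [pow_succ]
          nlinarith

/-- **LOW1** -/
theorem t_LOW1 : S_LOW1 := by
  classical
  intro k f W c t hk hGr hc ht hReg lam hlam
  obtain ⟨a, C, n₀, ha, hC, hn₀, hG1, -⟩ := hGr
  have hla : 0 < lam * a := mul_pos hlam ha
  refine ⟨lam * a + 1, by linarith, fun c₂ => ?_⟩
  -- the constants
  obtain ⟨η, hη⟩ : ∃ η : ℝ, η = 1 / (8 * ((c₂ : ℝ) + 1) * (k * 2 ^ k)) := ⟨_, rfl⟩
  have hkR : (1 : ℝ) ≤ k := by exact_mod_cast hk
  have h2k : (1 : ℝ) ≤ 2 ^ k := one_le_pow₀ (by norm_num)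
  have hc2 : (0 : ℝ) ≤ c₂ := Nat.cast_nonneg _
  have hden : 0 < 8 * ((c₂ : ℝ) + 1) * (k * 2 ^ k) := by positivity
  have hη0 : 0 < η := by rw [hη]; positivity
  have hη1 : η ≤ 1 := by
    rw [hη, div_le_one hden]
    have h1 : (1 : ℝ) ≤ k * 2 ^ k := by nlinarith
    nlinarith
  have hηc : ((1 + η) ^ k - 1) * c₂ ≤ 1 / 8 := by
    have h1 := one_add_pow_le hη0.le hη1 k
    have h2 : (1 + η) ^ k - 1 ≤ k * 2 ^ k * η := by linarith
    have h3 : (k * 2 ^ k * η) * ((c₂ : ℝ) + 1) = 1 / 8 := by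
      rw [hη]
      field_simp
    have h4 := mul_le_mul_of_nonneg_right h2 hc2
    have h5 : (k * 2 ^ k * η) * (c₂ : ℝ) ≤ (k * 2 ^ k * η) * ((c₂ : ℝ) + 1) :=
      mul_le_mul_of_nonneg_left (by linarith) (by positivity)
    linarith
  obtain ⟨v, hv⟩ : ∃ v : ℝ, v = (2 : ℝ) ^ k * (c₂ : ℝ) / (lam * a) := ⟨_, rfl⟩
  refine ⟨⌈v⌉₊ + 1, fun K hK => ?_⟩
  have hK1 : 1 ≤ K := le_trans (Nat.le_add_left _ _) hK
  have hK1R : (1 : ℝ) ≤ K := by exact_mod_cast hK1
  have hKb : (2 : ℝ) ^ k * c₂ / (lam * a) ≤ K := by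
    rw [← hv]
    have h1 := Nat.le_ceil v
    have h2 : ((⌈v⌉₊ : ℕ) : ℝ) ≤ (K : ℝ) :=
      Nat.cast_le.2 (le_trans (Nat.le_succ _) hK)
    linarith
  have hKk : (2 : ℝ) ^ k * c₂ ≤ (K : ℝ) ^ k * (lam * a) := by
    rw [div_le_iff₀ hla] at hKb
    refine hKb.trans (mul_le_mul_of_nonneg_right ?_ hla.le)
    calc (K : ℝ) = (K : ℝ) ^ 1 := (pow_one _).symm
      _ ≤ (K : ℝ) ^ k := pow_le_pow_right₀ hK1R hk
  obtain ⟨x₀, hx₀⟩ := hReg 1
  obtain ⟨C', hC'⟩ : ∃ C' : ℝ, C' = Real.log K + 1 := ⟨_, rfl⟩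
  have hC'1 : 1 ≤ C' := by
    rw [hC']
    have := Real.log_nonneg hK1R
    linarith
  refine ⟨c * η / C' ^ t, by positivity, ?_⟩
  -- large `j`
  have htend : Tendsto (fun j : ℕ => (2 : ℝ) ^ j) atTop atTop := tendsto_pow_atTop_atTop_of_one_lt (by norm_num)
  filter_upwards [htend.eventually_ge_atTop x₀, htend.eventually_ge_atTop (Real.exp (1 / η)),
    htend.eventually_ge_atTop (16 * lam * C * (K : ℝ) ^ (k - 1)), htend.eventually_ge_atTop 16,
    htend.eventually_ge_atTop (n₀ : ℝ)] with j hj1 hj2 hj3 hj4 hj5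
  intro M hM1 hM2
  set N : ℝ := (2 : ℝ) ^ j with hN
  have hN0 : 0 < N := by positivity
  set X : ℝ := (2 : ℝ) ^ (j * k) with hX
  have hXN : X = N ^ k := by rw [hX, hN, pow_mul]
  have hX0 : 0 < X := by positivity
  have hXNle : N ≤ X := by
    rw [hXN]
    calc N = N ^ 1 := (pow_one _).symm
      _ ≤ N ^ k := pow_le_pow_right₀ (by linarith) hk
  have hM2' : (M : ℝ) ≤ c₂ * X := by
    rw [hX]
    exact_mod_cast hM2
  obtain ⟨z, hz⟩ : ∃ z : ℝ, z = (M - 5 * X / 8) / (lam * a) := ⟨_, rfl⟩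
  have hzX : X < z := by
    rw [hz, lt_div_iff₀ hla]
    nlinarith
  have hz0 : 0 < z := hX0.trans hzX
  have hzM : lam * a * z = M - 5 * X / 8 := by
    rw [hz]
    field_simp
  obtain ⟨y, hy⟩ : ∃ y : ℝ, y = z ^ (1 / (k : ℝ)) := ⟨_, rfl⟩
  have hy0 : 0 < y := by rw [hy]; exact Real.rpow_pos_of_pos hz0 _
  have hk0 : k ≠ 0 := by omega
  have hyk : y ^ k = z := by
    rw [hy, one_div, Real.rpow_inv_natCast_pow hz0.le hk0]
  have hyN : N < y := by
    by_contra hcon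
    push Not at hcon
    have := pow_le_pow_left₀ hy0.le hcon k
    rw [hyk, ← hXN] at this
    linarith
  have h2y : 2 * y ≤ K * N := by
    by_contra hcon
    push Not at hcon
    have h1 := pow_lt_pow_left₀ hcon (by positivity) hk0
    rw [mul_pow, mul_pow, hyk, ← hXN] at h1
    have h2 : (2 : ℝ) ^ k * z * (lam * a) ≤ (K : ℝ) ^ k * X * (lam * a) := by
      have h3 : (2 : ℝ) ^ k * z * (lam * a) = 2 ^ k * (M - 5 * X / 8) := by
        rw [← hzM]; ring
      rw [h3]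
      have h4 : (2 : ℝ) ^ k * (M - 5 * X / 8) ≤ 2 ^ k * (c₂ * X) :=
        mul_le_mul_of_nonneg_left (by linarith) (by positivity)
      have h5 := mul_le_mul_of_nonneg_right hKk hX0.le
      nlinarith
    have h6 := lt_of_mul_lt_mul_right (lt_of_le_of_lt h2 (mul_lt_mul_of_pos_right h1 hla)) hla.le
    linarith
  -- the count
  have hlogy : 0 < Real.log y := by
    apply Real.log_pos
    linarith
  have hlogy1 : 1 / η ≤ Real.log y := by
    rw [Real.le_log_iff_exp_le hy0]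
    linarith
  have hcnt := hx₀ y (η * y) (by linarith) (by
      rw [Real.rpow_one, div_le_iff₀ hlogy]
      have h1 : 1 ≤ η * Real.log y := by
        have := mul_le_mul_of_nonneg_left hlogy1 hη0.le
        rwa [mul_one_div_cancel hη0.ne'] at this
      nlinarith) (by nlinarith)
  have hsub : (W ∩ {n : ℕ | y < n ∧ (n : ℝ) ≤ y + η * y}) ⊆
      (((blk W K (2 ^ j)).filter fun n => 2 ^ (j * k) ≤ 4 * (M - fl lam (f n)) ∧
        4 * (M - fl lam (f n)) ≤ 3 * 2 ^ (j * k) : Finset ℕ) : Set ℕ) := by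
    rintro n ⟨hnW, hn1, hn2⟩
    have hn2' : (n : ℝ) ≤ K * N := by nlinarith
    have hnN : N < n := by linarith
    have hn0 : (0 : ℝ) < n := by linarith
    have hNnat : ((2 ^ j : ℕ) : ℝ) = N := by rw [hN]; push_cast; rfl
    have m1 : 2 ^ j < n := by
      have : ((2 ^ j : ℕ) : ℝ) < n := by rw [hNnat]; exact hnN
      exact_mod_cast this
    have m2 : n ≤ K * 2 ^ j := by
      have : (n : ℝ) ≤ ((K * 2 ^ j : ℕ) : ℝ) := by
        push_cast
        exact hn2'
      exact_mod_cast this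
    have hnn₀ : n₀ ≤ n := by
      have : (n₀ : ℝ) ≤ n := by linarith
      exact_mod_cast this
    -- size of `n ^ k`
    have p1 : z ≤ (n : ℝ) ^ k := by
      rw [← hyk]
      exact pow_le_pow_left₀ hy0.le hn1.le k
    have p2 : (n : ℝ) ^ k ≤ (1 + η) ^ k * z := by
      rw [← hyk, ← mul_pow]
      exact pow_le_pow_left₀ hn0.le (by linarith) k
    have q1 : M - 5 * X / 8 ≤ lam * a * (n : ℝ) ^ k := by
      rw [← hzM]
      exact mul_le_mul_of_nonneg_left p1 hla.le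
    have q2 : lam * a * (n : ℝ) ^ k ≤ M - X / 2 := by
      have h1 := mul_le_mul_of_nonneg_left p2 hla.le
      have h2 : lam * a * ((1 + η) ^ k * z) = (1 + η) ^ k * (M - 5 * X / 8) := by
        rw [← hzM]; ring
      rw [h2] at h1
      have h3 : (1 : ℝ) ≤ (1 + η) ^ k := one_le_pow₀ (by linarith)
      have h4 : ((1 + η) ^ k - 1) * (M - 5 * X / 8) ≤ ((1 + η) ^ k - 1) * (c₂ * X) :=
        mul_le_mul_of_nonneg_left (by linarith) (by linarith)
      have h5 : ((1 + η) ^ k - 1) * (c₂ * X) ≤ 1 / 8 * X := by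
        have := mul_le_mul_of_nonneg_right hηc hX0.le
        linarith
      linarith
    have r1 := hG1 n hnn₀
    have r2 : lam * (C * (n : ℝ) ^ (k - 1)) ≤ X / 16 := by
      have h1 : (n : ℝ) ^ (k - 1) ≤ (K : ℝ) ^ (k - 1) * N ^ (k - 1) := by
        rw [← mul_pow]
        exact pow_le_pow_left₀ hn0.le hn2' _
      have h2 : X = N * N ^ (k - 1) := by
        rw [hXN, ← pow_succ']
        congr 1
        omega
      have h3 : 0 ≤ N ^ (k - 1) := by positivity
      have h4 := mul_le_mul_of_nonneg_right hj3 h3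
      have h5 := mul_le_mul_of_nonneg_left h1 (by positivity : 0 ≤ lam * C)
      rw [h2]
      linarith
    have r3 : |lam * (f n : ℝ) - lam * a * (n : ℝ) ^ k| ≤ X / 16 := by
      have h1 : lam * (f n : ℝ) - lam * a * (n : ℝ) ^ k = lam * ((f n : ℝ) - a * (n : ℝ) ^ k) := by ring
      rw [h1, abs_mul, abs_of_pos hlam]
      exact (mul_le_mul_of_nonneg_left r1 hlam.le).trans r2
    rw [abs_le] at r3
    have s1 : ((fl lam (f n) : ℕ) : ℝ) ≤ lam * f n := by
      unfold fl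
      exact Nat.floor_le (by positivity)
    have s2 : lam * f n < (fl lam (f n) : ℕ) + 1 := by
      unfold fl
      exact Nat.lt_floor_add_one _
    have hle : fl lam (f n) ≤ M := by
      have : ((fl lam (f n) : ℕ) : ℝ) ≤ M := by linarith [r3.2]
      exact_mod_cast this
    have hsubc : (((M - fl lam (f n) : ℕ)) : ℝ) = (M : ℝ) - (fl lam (f n) : ℕ) := Nat.cast_sub hle
    have hXnat : ((2 ^ (j * k) : ℕ) : ℝ) = X := by rw [hX]; push_cast; rfl
    rw [Finset.coe_filter]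
    refine ⟨?_, ?_, ?_⟩
    · unfold blk
      rw [Finset.mem_filter, Finset.mem_Ioc]
      exact ⟨⟨m1, m2⟩, hnW⟩
    · have : ((2 ^ (j * k) : ℕ) : ℝ) ≤ ((4 * (M - fl lam (f n)) : ℕ) : ℝ) := by
        rw [hXnat, Nat.cast_mul, hsubc]
        push_cast
        linarith [r3.2]
      exact_mod_cast this
    · have : ((4 * (M - fl lam (f n)) : ℕ) : ℝ) ≤ ((3 * 2 ^ (j * k) : ℕ) : ℝ) := by
        rw [Nat.cast_mul 3, hXnat, Nat.cast_mul, hsubc]
        push_cast
        linarith [r3.1]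
      exact_mod_cast this
  have hcard := Set.ncard_le_ncard hsub (Finset.finite_toSet _)
  rw [Set.ncard_coe_finset] at hcard
  refine le_trans ?_ (hcnt.trans (by exact_mod_cast hcard))
  -- comparison of the logarithms
  have hj0 : (0 : ℝ) ≤ j := Nat.cast_nonneg _
  have hlogle : Real.log y ≤ C' * ((j : ℝ) + 1) := by
    have h1 : Real.log y ≤ Real.log (K * N) := Real.log_le_log hy0 (by linarith)
    rw [Real.log_mul (by positivity) hN0.ne', hN, Real.log_pow] at h1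
    have h2 : Real.log 2 ≤ 1 := by
      have := Real.log_two_lt_d9
      linarith
    have h3 := Real.log_nonneg hK1R
    rw [hC']
    nlinarith
  have hrp : (Real.log y) ^ t ≤ C' ^ t * ((j : ℝ) + 1) ^ t := by
    rw [← Real.mul_rpow (by linarith) (by linarith)]
    exact Real.rpow_le_rpow hlogy.le hlogle ht
  have hd0 : 0 < (Real.log y) ^ t := Real.rpow_pos_of_pos hlogy t
  have hd1 : 0 < C' ^ t := Real.rpow_pos_of_pos (by linarith) t
  have hd2 : 0 < ((j : ℝ) + 1) ^ t := Real.rpow_pos_of_pos (by linarith) t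
  have e1 : c * η / C' ^ t * N / ((j : ℝ) + 1) ^ t = c * (η * N) / (C' ^ t * ((j : ℝ) + 1) ^ t) := by
    field_simp
  rw [e1]
  apply div_le_div₀ (by positivity) _ hd0 hrp
  exact mul_le_mul_of_nonneg_left (mul_le_mul_of_nonneg_left hyN.le hη0.le) hc.le

end Pool.Agent.Run7.h374.MW
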