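import Pool.Agent.Run7.h757.MW.Stm5

/-!
# Project MW, piece POLY
-/

set_option autoImplicit false

open Finset MeasureTheory Filter

namespace Pool.Agent.Run7.h374.MW

open Pool.Agent.Run7.h757.MW

/-- `n (n^i - m^i) ≤ i n^i (n - m)` -/
theorem pow_diff {m n : ℝ} (hm : 0 ≤ m) (hmn : m ≤ n) (i : ℕ) :
    n * (n ^ i - m ^ i) ≤ i * n ^ i * (n - m) := by
  induction i with
  | zero => simp
  | succ i ih =>
    have hn : 0 ≤ n := hm.trans hmn
    have h1 : m ^ i ≤ n ^ i := pow_le_pow_left₀ hm hmn i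
    have h2 : n * (n ^ (i + 1) - m ^ (i + 1)) = m * (n * (n ^ i - m ^ i)) + n * n ^ i * (n - m) := by ring
    rw [h2]
    have h3 : m * (n * (n ^ i - m ^ i)) ≤ n * (n * (n ^ i - m ^ i)) :=
      mul_le_mul_of_nonneg_right hmn (mul_nonneg hn (sub_nonneg.2 h1))
    have h4 := mul_le_mul_of_nonneg_left ih hn
    have h5 : n * (i * n ^ i * (n - m)) + n * n ^ i * (n - m) =
        ((i + 1 : ℕ) : ℝ) * n ^ (i + 1) * (n - m) := by
      push_cast
      ring
    linarith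

/-- `n^(k+1) - m^(k+1) ≥ n^k (n - m)` -/
theorem pow_diff' {m n : ℝ} (hm : 0 ≤ m) (hmn : m ≤ n) (k : ℕ) :
    n ^ k * (n - m) ≤ n ^ (k + 1) - m ^ (k + 1) := by
  have h1 : m ^ k ≤ n ^ k := pow_le_pow_left₀ hm hmn k
  have h2 : n ^ (k + 1) - m ^ (k + 1) = n ^ k * (n - m) + m * (n ^ k - m ^ k) := by ring
  rw [h2]
  have := mul_nonneg hm (sub_nonneg.2 h1)
  linarith

/-- **POLY** -/
theorem t_POLY : S_POLY := by
  intro f hf1 hf2
  obtain ⟨k, hk⟩ : ∃ k, f.natDegree = k + 1 := ⟨f.natDegree - 1, by omega⟩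
  obtain ⟨A, hA⟩ : ∃ A : ℕ, A = ∑ i ∈ range (k + 1), (f.coeff i).natAbs := ⟨_, rfl⟩
  have ha1 : (1 : ℝ) ≤ f.leadingCoeff := by exact_mod_cast hf2
  set a : ℝ := (f.leadingCoeff : ℝ) with ha
  have heval : ∀ n : ℕ, ((f.eval (n : ℤ) : ℤ) : ℝ) =
      a * (n : ℝ) ^ (k + 1) + ∑ i ∈ range (k + 1), (f.coeff i : ℝ) * (n : ℝ) ^ i := by
    intro n
    rw [Polynomial.eval_eq_sum_range, sum_range_succ, hk, ha, Polynomial.leadingCoeff, hk]
    push_cast
    ring
  have hAR : ∑ i ∈ range (k + 1), |(f.coeff i : ℝ)| = (A : ℝ) := by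
    rw [hA]
    push_cast
    refine sum_congr rfl fun i _ => ?_
    rw [Nat.cast_natAbs]
    push_cast
    rfl
  have hrest : ∀ n : ℕ, 1 ≤ n → |∑ i ∈ range (k + 1), (f.coeff i : ℝ) * (n : ℝ) ^ i| ≤ A * (n : ℝ) ^ k := by
    intro n hn
    have hn1 : (1 : ℝ) ≤ n := by exact_mod_cast hn
    refine (abs_sum_le_sum_abs _ _).trans ?_
    rw [← hAR, sum_mul]
    refine sum_le_sum fun i hi => ?_
    rw [abs_mul, abs_of_nonneg (by positivity : (0 : ℝ) ≤ (n : ℝ) ^ i)]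
    refine mul_le_mul_of_nonneg_left (pow_le_pow_right₀ hn1 ?_) (abs_nonneg _)
    have := mem_range.1 hi
    omega
  have hpos : ∀ n : ℕ, A + 1 ≤ n → 0 < f.eval (n : ℤ) := by
    intro n hn
    have hn1 : (A : ℝ) + 1 ≤ n := by exact_mod_cast hn
    have hn0 : (0 : ℝ) < n := by
      have : (0 : ℝ) ≤ A := Nat.cast_nonneg _
      linarith
    have h1 := (abs_le.1 (hrest n (by omega))).1
    have h2 : (0 : ℝ) < ((f.eval (n : ℤ) : ℤ) : ℝ) := by
      rw [heval n]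
      have h3 : (0 : ℝ) < (n : ℝ) ^ k := by positivity
      have h4 : a * (n : ℝ) ^ (k + 1) = a * n * (n : ℝ) ^ k := by ring
      have h5 : (n : ℝ) * (n : ℝ) ^ k ≤ a * n * (n : ℝ) ^ k := by
        have := mul_le_mul_of_nonneg_right ha1 (mul_nonneg hn0.le h3.le)
        linarith
      nlinarith
    exact_mod_cast h2
  have hcast : ∀ n : ℕ, A + 1 ≤ n → (((f.eval (n : ℤ)).toNat : ℕ) : ℝ) = ((f.eval (n : ℤ) : ℤ) : ℝ) := by
    intro n hn
    have h1 : (((f.eval (n : ℤ)).toNat : ℤ)) = f.eval (n : ℤ) := Int.toNat_of_nonneg (hpos n hn).le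
    have h2 : ((((f.eval (n : ℤ)).toNat : ℤ)) : ℝ) = ((f.eval (n : ℤ) : ℤ) : ℝ) := by rw [h1]
    rw [← h2]
    push_cast
    rfl
  refine ⟨⟨a, A + 2, 2 * A * k + A + 1, by linarith, by positivity, by omega, ?_, ?_⟩, ?_⟩
  · intro n hn
    have hn' : A + 1 ≤ n := by
      have : 0 ≤ 2 * A * k := Nat.zero_le _
      omega
    show |(((f.eval (n : ℤ)).toNat : ℕ) : ℝ) - a * (n : ℝ) ^ f.natDegree| ≤
      ((A : ℝ) + 2) * (n : ℝ) ^ (f.natDegree - 1)
    rw [hcast n hn', heval n, hk, add_sub_cancel_left, Nat.add_sub_cancel]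
    refine (hrest n (by omega)).trans ?_
    have : (0 : ℝ) ≤ (n : ℝ) ^ k := by positivity
    nlinarith
  · intro m n hm hmn
    have hm' : A + 1 ≤ m := by
      have : 0 ≤ 2 * A * k := Nat.zero_le _
      omega
    have hn' : A + 1 ≤ n := by omega
    show (m : ℝ) ^ (f.natDegree - 1) * ((n : ℝ) - m) ≤ ((A : ℝ) + 2) *
      ((((f.eval (n : ℤ)).toNat : ℕ) : ℝ) - (((f.eval (m : ℤ)).toNat : ℕ) : ℝ))
    rw [hcast n hn', hcast m hm', heval n, heval m, hk, Nat.add_sub_cancel]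
    have hmR : (0 : ℝ) ≤ m := Nat.cast_nonneg _
    have hmnR : (m : ℝ) ≤ n := by exact_mod_cast hmn.le
    have hnR : (0 : ℝ) < n := by
      have : 0 < n := by omega
      exact_mod_cast this
    have hnbig : 2 * (A : ℝ) * k ≤ n := by
      have : 2 * A * k ≤ n := by omega
      exact_mod_cast this
    have h1 := pow_diff' hmR hmnR k
    have h2 : |∑ i ∈ range (k + 1), (f.coeff i : ℝ) * ((n : ℝ) * ((n : ℝ) ^ i - (m : ℝ) ^ i))| ≤
        A * (k * (n : ℝ) ^ k * ((n : ℝ) - m)) := by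
      refine (abs_sum_le_sum_abs _ _).trans ?_
      rw [← hAR, sum_mul]
      refine sum_le_sum fun i hi => ?_
      have hi' : i ≤ k := by
        have := mem_range.1 hi
        omega
      have h3 : 0 ≤ (n : ℝ) * ((n : ℝ) ^ i - (m : ℝ) ^ i) :=
        mul_nonneg hnR.le (sub_nonneg.2 (pow_le_pow_left₀ hmR hmnR i))
      rw [abs_mul, abs_of_nonneg h3]
      refine mul_le_mul_of_nonneg_left ((pow_diff hmR hmnR i).trans ?_) (abs_nonneg _)
      have hn1 : (1 : ℝ) ≤ n := by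
        have : 1 ≤ n := by omega
        exact_mod_cast this
      refine mul_le_mul_of_nonneg_right ?_ (sub_nonneg.2 hmnR)
      refine mul_le_mul (by exact_mod_cast hi') (pow_le_pow_right₀ hn1 hi') (by positivity) (by positivity)
    set P := (n : ℝ) ^ k * ((n : ℝ) - m) with hP
    have hP0 : 0 ≤ P := mul_nonneg (by positivity) (sub_nonneg.2 hmnR)
    set Df := a * (n : ℝ) ^ (k + 1) + ∑ i ∈ range (k + 1), (f.coeff i : ℝ) * (n : ℝ) ^ i -
      (a * (m : ℝ) ^ (k + 1) + ∑ i ∈ range (k + 1), (f.coeff i : ℝ) * (m : ℝ) ^ i) with hDf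
    have h4 : n * Df = n * (a * ((n : ℝ) ^ (k + 1) - (m : ℝ) ^ (k + 1))) +
        ∑ i ∈ range (k + 1), (f.coeff i : ℝ) * ((n : ℝ) * ((n : ℝ) ^ i - (m : ℝ) ^ i)) := by
      have h5 : ∑ i ∈ range (k + 1), (f.coeff i : ℝ) * ((n : ℝ) * ((n : ℝ) ^ i - (m : ℝ) ^ i)) =
          n * ∑ i ∈ range (k + 1), (f.coeff i : ℝ) * (n : ℝ) ^ i -
          n * ∑ i ∈ range (k + 1), (f.coeff i : ℝ) * (m : ℝ) ^ i := by
        rw [mul_sum, mul_sum, ← sum_sub_distrib]
        refine sum_congr rfl fun i _ => ?_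
        ring
      rw [h5, hDf]
      ring
    have h6 : P ≤ a * ((n : ℝ) ^ (k + 1) - (m : ℝ) ^ (k + 1)) := by
      have h7 : P ≤ (n : ℝ) ^ (k + 1) - (m : ℝ) ^ (k + 1) := h1
      have h8 : 0 ≤ (n : ℝ) ^ (k + 1) - (m : ℝ) ^ (k + 1) := hP0.trans h7
      nlinarith
    have h9 : (n : ℝ) * P - A * (k * P) ≤ n * Df := by
      rw [h4]
      have h10 := (abs_le.1 h2).1
      have h11 : (A : ℝ) * (k * (n : ℝ) ^ k * ((n : ℝ) - m)) = A * (k * P) := by rw [hP]; ring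
      rw [h11] at h10
      have h12 := mul_le_mul_of_nonneg_left h6 hnR.le
      linarith
    have h13 : (n : ℝ) * P / 2 ≤ n * Df := by
      have h14 : 2 * (A * (k * P)) ≤ n * P := by
        have := mul_le_mul_of_nonneg_right hnbig hP0
        linarith
      linarith
    have h15 : P / 2 ≤ Df := by
      have h16 : (n : ℝ) * (P / 2) ≤ n * Df := by linarith
      exact le_of_mul_le_mul_left h16 hnR
    have h17 : (m : ℝ) ^ k * ((n : ℝ) - m) ≤ P :=
      mul_le_mul_of_nonneg_right (pow_le_pow_left₀ hmR hmnR k) (sub_nonneg.2 hmnR)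
    have hDf0 : 0 ≤ Df := by linarith
    have hA0 : (0 : ℝ) ≤ A := Nat.cast_nonneg _
    nlinarith
  · filter_upwards [eventually_ge_atTop (A + 1)] with n hn
    exact hpos n hn

end Pool.Agent.Run7.h374.MW
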